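import Pool.Agent.N508.CS.Main
import Pool.Agent.N508.CS.Stab
import Pool.Agent.N508.CS.Qd
import Pool.Agent.N508.CS.Hom
import Pool.Agent.N508.CS.Finite
import Pool.Agent.N508.CS.Top
import Pool.Agent.N508.CS.Fc
import Pool.Agent.N508.CS.Fcm
import Pool.Agent.N508.CS.Rho
import Pool.Agent.N508.CS.Cyf
import Pool.Agent.N508.CS.Qone
import Pool.Agent.N508.CS.Cay
import Pool.Agent.N508.CS.Ca

/-!
# Graphs of groups whose edge groups are commensurable or have small intersection

`C` is any class of groups with the closure properties `ClosedE C` which contains the metabelian
groups and satisfies `AcylF C`: a finitely generated group that acts on a tree without inversions, such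
that the pointwise stabilizers of long paths have bounded order, is in `C` if the vertex stabilizers
are in `C`. All this is known for the class of the groups whose wreath products with finite groups
satisfy the K-theoretic Farrell-Jones conjecture with coefficients (`AcylF` is a theorem of Knopf, and
the groups `GL_m(ℚ)` are in this class by a theorem of Rüping). For the torsion-free groups `G` in this
class `Wh(G)`, `K̃₀(ℤG)` and `K_n(ℤG)`, `n ≤ -1`, vanish.

Let `G` act on a tree with vertex stabilizers `G_v` in `C`, and suppose that the stabilizers of two
edges at a vertex are commensurable or have at most `n` common elements. For an edge `e = vu` with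
infinite stabilizer `E` let `Comm_v(E)` be the commensurator of `E` in `G_v`. Suppose that every such
`E` is virtually torsion-free polycyclic and `C` contains the groups `GL_m(ℚ)`, or that only finitely
many elements of `E` of finite order have centralizers of finite index in `E`, and the groups which
contain and commensurate `E` map to groups in `C` in such a way that the elements of the kernels
centralize subgroups of finite index of `E` (for example `Comm(E)` is in `C`) (`EC`).

* (1) If for each such edge `E` is contained with finite index in a normal subgroup `A` of `Comm_v(E)`
  such that `Comm_v(E) / A` embeds in a group in `C`, where `A` depends only on `v` and the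
  commensurability class of `E` and `A` is equivariant (`CmA`), then `G` is in `C`.
* (2) This is the case with `A = Comm_v(E)` if each infinite edge group `E` has finite index in
  `Comm_v(E)` (`CmE`).

Nothing is supposed about the elements of `G` which conjugate subgroups of finite index of `E` to each
other. Examples:

* all graphs of virtually polycyclic groups in which the edge groups have finite index in the vertex
  groups;
* all graphs of groups in which each vertex group is an extension with kernel `P_v` virtually
  polycyclic and quotient `G_v / P_v` in `C`, and the edge groups are of finite index in the groups `P_v`;
* amalgamated products and HNN extensions (also with many edges at the same peripheral subgroup) of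
  relatively hyperbolic groups in `C` along subgroups of finite index of virtually polycyclic
  peripheral subgroups, for instance of fundamental groups of complete manifolds of finite volume with
  pinched negative curvature glued along finite coverings of their cusps.

Outline of the proof. By the theorem on trees of cylinders for the relation of commensurability of edge
stabilizers it suffices that the stabilizers `K` of the cylinders are in `C`. The group `K` acts on a
subtree, on which all edge stabilizers are commensurable with one group `E`, so there is a homomorphism
`ρ` from `K` to a group in `C` whose kernel consists of elements which centralize subgroups of finite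
index of `E` (`Pool.Agent.N77` for polycyclic groups). The groups `A(w)` form a compatible family, and
the quotient of `K` by the subgroup `N` generated by them is in `C` (`t_q1`). The stabilizers of the
vertices in `ker ρ ∩ N` have finite conjugacy classes and finitely many elements of finite order, so
that `K` is in `C` by the theorem on compatible series for `ker ρ ∩ N` (`t_fcm`).
-/

set_option autoImplicit false

namespace Pool.Agent.Results.MP_16fe43_al.CommensurableEdgeGroups

open Pool.Agent.Y110.FJ (ClosedE)
open Pool.Agent.N509.TX (AcylF)
open Pool.Agent.N508.CS

theorem result (C : ∀ (G : Type) [Group G], Prop) (hC : ClosedE C)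
    (hM : ∀ (G : Type) [Group G], derivedSeries G 2 = ⊥ → C G) (hA : AcylF C)
    {G V : Type} [Group G] [MulAction G V] (T : SimpleGraph V) (hT : T.IsTree)
    (hact : ∀ (g : G) (u v : V), T.Adj u v → T.Adj (g • u) (g • v))
    (hV : ∀ v : V, C ↥(MulAction.stabilizer G v))
    (hE : ∀ v u : V, T.Adj v u → Infinite (Ed G v u) → EC C (Ed G v u)) (n : ℕ) :
    (∀ A : V → V → Subgroup G, CmA C n T A → C G) ∧ (CmE n G T → C G) := by
  have h1 : ∀ A : V → V → Subgroup G, CmA C n T A → C G := fun A h =>
    t_ca (t_cay t_stab t_fc (t_fcm (t_main (t_qd t_stab) t_h t_f t_top) t_abel t_fc) t_rho
      (t_q1 (t_qd t_stab) t_h t_top)) t_cyf C hC hM hA n G V T hT hact hV A h hE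
  refine ⟨h1, fun h => ?_⟩
  obtain ⟨A, hA'⟩ := t_ce C hC n G V T hact h
  exact h1 A hA'

end Pool.Agent.Results.MP_16fe43_al.CommensurableEdgeGroups
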