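import Pool.Agent.N510.CT.Fib
import Pool.Agent.N510.CT.FibUp

set_option autoImplicit false

/-!
# Controlled modules at the norm `3 / √2`

Let `φ : E → G` be a surjective homomorphism of groups. Every `RE`-module with a presentation
which is controlled over `G` by a matrix of `ℓ²`-operator norm at most `3 / √2` (the bound included)
is a direct sum of modules induced from subgroups of `E` with virtually cyclic image in `G`. For
every larger bound all finitely presented modules over the rings `R[G × H]`, for instance over
`ℤ[G × ℤ^r]`, have such a presentation.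
-/

namespace Pool.Agent.Results.MP_16fe43_al.CriticalControlledModules

open TH57.Thr TH6.PF TH6.FB Pool.Agent.N510

/-- The `RE`-module `P` is presented by a matrix `M` over `RE` with coefficients in `S ∪ {0}`, and
there is a matrix `A` over `ℤG` of the same size whose norm on `ℓ²(G)` is at most `c` such that `φ`
maps the supports of the entries of `M` into the supports of the entries of `A`. -/
def HasCtrl {R : Type} [Ring R] (S : Set R) {E G : Type} [Group E] [Group G] (φ : E →* G)
    (c : ℝ) (P : Type) [AddCommGroup P] [Module (MonoidAlgebra R E) P] : Prop :=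
  ∃ (m n : ℕ) (M : Matrix (Fin m) (Fin n) (MonoidAlgebra R E))
    (A : Matrix (Fin m) (Fin n) (MonoidAlgebra ℤ G)),
    LT.CS S M ∧ NormLE A c ∧ (∀ i j e, (M i j).coeff e ≠ 0 → (A i j).coeff (φ e) ≠ 0) ∧
    Nonempty (P ≃ₗ[MonoidAlgebra R E] Coker M)

/-- 1. Let `φ : E → G` be a surjective homomorphism and let the `RE`-module `P` have a presentation
which is controlled over `G` by a matrix of norm at most `3 / √2`. Then `P` is a finite direct sum of
modules induced from subgroups of `E` with virtually cyclic image in `G` (cyclic image if `G` is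
torsion-free), projective ones if `P` is projective.
2. Let `c > 3 / √2` and let `S` be a set of additive generators of `R` with `1 ∈ S` and `-S = S`.
Then every finitely presented module over `R[G × H]` has a presentation by a matrix with coefficients
in `S ∪ {0}` which is controlled over `G` by a matrix of norm at most `c`. -/
theorem result :
    (∀ (R : Type) [Ring R] (E G : Type) [Group E] [Group G] (φ : E →* G), Function.Surjective φ →
      ∀ (c : ℝ), 0 < c → c ^ 2 ≤ 9 / 2 →
      ∀ (P : Type) [AddCommGroup P] [Module (MonoidAlgebra R E) P],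
      HasCtrl (Set.univ : Set R) φ c P → FibSum R φ P) ∧
    ∀ (R : Type) [Ring R] [Nontrivial R] (S : Set R), LT.Gens S →
      ∀ (G H : Type) [Group G] [Group H] (c : ℝ), 9 / 2 < c ^ 2 →
      ∀ (P : Type) [AddCommGroup P] [Module (MonoidAlgebra R (G × H)) P],
      Module.FinitePresentation (MonoidAlgebra R (G × H)) P → HasCtrl S (MonoidHom.fst G H) c P := by
  refine ⟨?_, ?_⟩
  · rintro R _ E G _ _ φ hφ c hc0 hc P _ _ ⟨m, n, M, A, -, hA, hM, ⟨e⟩⟩
    exact CT.ctrl_modules2 φ hφ P m n M e A c hc0 hc hA hM
  · intro R _ _ S hS G H _ _ c hc P _ _ hP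
    obtain ⟨m, n, M, B, h1, h2, h3, h4⟩ := CT.ctrl_pres hS (MulEquiv.refl (G × H)) P hP c hc
    exact ⟨m, n, M, B, h1, h2, h3, h4⟩

end Pool.Agent.Results.MP_16fe43_al.CriticalControlledModules
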