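import Pool.Agent.N510.CT.Mod
import Pool.Agent.N510.CT.KOne
import Pool.Agent.N510.CT.Dom

set_option autoImplicit false

/-!
# The Whitehead group at the norm `3 / √2`

For a torsion-free group `G` every invertible matrix over `ℤG` of operator norm at most `3 / √2`
(the bound included) is zero in the Whitehead group. For every larger bound and every group, all
elements of the Whitehead group are represented by invertible matrices of such a norm with
coefficients `0`, `1`, `-1`; so Whitehead's question for `G` is the question for these matrices.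
-/

namespace Pool.Agent.Results.MP_16fe43_al.CriticalNormWhitehead

open TH57.Thr TH6.PF Matrix Pool.Agent.N510

/-- All coefficients are `0`, `1` or `-1`. -/
def Small {G : Type} {ι κ : Type} (A : Matrix ι κ (MonoidAlgebra ℤ G)) : Prop :=
  ∀ i j g, (A i j).coeff g = 0 ∨ (A i j).coeff g = 1 ∨ (A i j).coeff g = -1

/-- `A` is zero in the Whitehead group: for some `m`, some `g ∈ G` and some sign `ε` the matrix
`diag(A, 1_(m+1))` is the product of the diagonal matrix `diag(1, …, 1, ε g, 1, …, 1)` and an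
element of the commutator subgroup of the general linear group. -/
def ZeroInWh {G : Type} [Group G] {ι : Type} [Fintype ι] [DecidableEq ι]
    (A : Matrix ι ι (MonoidAlgebra ℤ G)) : Prop :=
  ∃ (m : ℕ) (g : G) (ε : ℤˣ) (C : (Matrix (ι ⊕ Fin (m + 1)) (ι ⊕ Fin (m + 1))
      (MonoidAlgebra ℤ G))ˣ),
    C ∈ commutator (Matrix (ι ⊕ Fin (m + 1)) (ι ⊕ Fin (m + 1)) (MonoidAlgebra ℤ G))ˣ ∧
    fromBlocks A 0 0 1 =
      Matrix.diagonal (fun i : ι ⊕ Fin (m + 1) =>
        if i = Sum.inr (0 : Fin (m + 1)) then (MonoidAlgebra.single g (ε : ℤ)) else 1) * C.val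

/-- For some `m` and some `C` in the commutator subgroup, `diag(A, 1_m) * C` has coefficients
`0`, `1`, `-1` and norm at most `c`. -/
def HasRep {G : Type} [Group G] {n : ℕ} (A : Matrix (Fin n) (Fin n) (MonoidAlgebra ℤ G)) (c : ℝ) :
    Prop :=
  ∃ (m : ℕ) (C : (Matrix (Fin n ⊕ Fin m) (Fin n ⊕ Fin m) (MonoidAlgebra ℤ G))ˣ),
    C ∈ commutator (Matrix (Fin n ⊕ Fin m) (Fin n ⊕ Fin m) (MonoidAlgebra ℤ G))ˣ ∧
    Small (fromBlocks A 0 0 1 * C.val) ∧ NormLE (fromBlocks A 0 0 1 * C.val) c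

/-- `A` is zero in the Whitehead group, in terms of the library's predicate. -/
theorem zero_of_TT {G : Type} [Group G] {ι : Type} [Fintype ι] [DecidableEq ι]
    (A : (Matrix ι ι (MonoidAlgebra ℤ G))ˣ) (h : TT (TU G) A) : ZeroInWh A.val := by
  obtain ⟨μ, i1, i2, h1⟩ := h
  have h2 := (TT_more (TU G) A μ h1 (Fin 1)).1
  have hcard : Fintype.card (Fin (Fintype.card μ + 1)) = Fintype.card (μ ⊕ Fin 1) := by simp
  let e : Fin (Fintype.card μ + 1) ≃ (μ ⊕ Fin 1) := Fintype.equivOfCardEq hcard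
  have h3 := re_mem (TU G) (Equiv.sumCongr (Equiv.refl ι) e) _ h2
  obtain ⟨u, ⟨g, ε, hu⟩, C, hC, h4⟩ := HH_form (TU G)
    (Sum.inr (0 : Fin (Fintype.card μ + 1))) _ h3
  refine ⟨Fintype.card μ, g, ε, C, hC, ?_⟩
  have h5 := congrArg Units.val h4
  rw [Units.val_mul] at h5
  convert h5 using 1
  · ext (i | i) (j | j) <;> simp [stm, re, Matrix.one_apply]
  · congr 1
    change _ = dgm (Sum.inr (0 : Fin (Fintype.card μ + 1))) (u : MonoidAlgebra ℤ G)
    rw [dgm_apply, hu]
    congr 1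
    funext i
    by_cases h : i = Sum.inr (0 : Fin (Fintype.card μ + 1))
    · subst h; simp
    · rw [if_neg h, Function.update_of_ne h]; rfl

theorem TT_of_zero {G : Type} [Group G] {ι : Type} [Fintype ι] [DecidableEq ι]
    (A : (Matrix ι ι (MonoidAlgebra ℤ G))ˣ) (h : ZeroInWh A.val) : TT (TU G) A := by
  obtain ⟨m, g, ε, C, hC, h1⟩ := h
  refine ⟨Fin (m + 1), inferInstance, inferInstance, ?_⟩
  have hu : (MonoidAlgebra.single g (ε : ℤ) : MonoidAlgebra ℤ G) *
      MonoidAlgebra.single g⁻¹ ((ε⁻¹ : ℤˣ) : ℤ) = 1 := by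
    rw [MonoidAlgebra.single_mul_single, mul_inv_cancel, MonoidAlgebra.one_def]
    simp
  have hu' : (MonoidAlgebra.single g⁻¹ ((ε⁻¹ : ℤˣ) : ℤ) : MonoidAlgebra ℤ G) *
      MonoidAlgebra.single g (ε : ℤ) = 1 := by
    rw [MonoidAlgebra.single_mul_single, inv_mul_cancel, MonoidAlgebra.one_def]
    simp
  let u : (MonoidAlgebra ℤ G)ˣ := ⟨_, _, hu, hu'⟩
  have h2 : Units.map (stm (Fin (m + 1))) A =
      Units.map (dgm (Sum.inr (0 : Fin (m + 1)))) u * C := by
    apply Units.ext
    rw [Units.val_mul]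
    have h3 : (Units.map (stm (Fin (m + 1))) A).val = fromBlocks A.val 0 0 1 := by
      ext (i | i) (j | j) <;> simp [stm, Matrix.one_apply]
    rw [h3, h1]
    congr 1
    change _ = dgm (Sum.inr (0 : Fin (m + 1))) (u : MonoidAlgebra ℤ G)
    rw [dgm_apply]
    congr 1
    funext i
    by_cases h : i = Sum.inr (0 : Fin (m + 1))
    · subst h; simp [u]
    · rw [if_neg h, Function.update_of_ne h]; rfl
  rw [h2]
  refine mul_mem ?_ ?_
  · exact Subgroup.mem_sup_right (Subgroup.subset_closure ⟨_, u, ⟨g, ε, rfl⟩, rfl⟩)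
  · exact Subgroup.mem_sup_left hC

/-- Torsion-free: the only element of finite order is the identity. -/
def TorsionFree (G : Type) [Group G] : Prop := ∀ g : G, ∀ k : ℕ, 0 < k → g ^ k = 1 → g = 1

/-- `NormLE A c` (from `Pool.Agent.TH57.Thr.Defs`): right multiplication by `A` on `ℓ²` has norm at
most `|c|`. -/
theorem result :
    (∀ c : ℝ, 0 < c → c ^ 2 ≤ 9 / 2 → ∀ (G : Type) [Group G], TorsionFree G →
      ∀ (n : ℕ) (A : (Matrix (Fin n) (Fin n) (MonoidAlgebra ℤ G))ˣ),
        NormLE A.val c → ZeroInWh A.val) ∧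
    ∀ c : ℝ, 9 / 2 < c ^ 2 → ∀ (G : Type) [Group G],
      (∀ (n : ℕ) (A : (Matrix (Fin n) (Fin n) (MonoidAlgebra ℤ G))ˣ), HasRep A.val c) ∧
      ((∀ (n : ℕ) (A : (Matrix (Fin n) (Fin n) (MonoidAlgebra ℤ G))ˣ),
          Small A.val → NormLE A.val c → ZeroInWh A.val) →
        ∀ (n : ℕ) (A : (Matrix (Fin n) (Fin n) (MonoidAlgebra ℤ G))ˣ), ZeroInWh A.val) := by
  have hsm : ∀ {G : Type} {ι κ : Type} {A : Matrix ι κ (MonoidAlgebra ℤ G)},
      LT.CS ({1, -1} : Set ℤ) A → Small A := by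
    intro G ι κ A h i j g
    by_cases h0 : (A i j).coeff g = 0
    · exact Or.inl h0
    · exact Or.inr (h i j g h0)
  have hup : ∀ c : ℝ, 9 / 2 < c ^ 2 → ∀ (G : Type) [Group G] (n : ℕ)
      (A : (Matrix (Fin n) (Fin n) (MonoidAlgebra ℤ G))ˣ), HasRep A.val c := by
    intro c hc G _ n A
    obtain ⟨m, C, h1, h2, h3⟩ := CT.sthin_red_fin CT.gens_int A c hc
    exact ⟨m, C, h1, hsm h2, CT.normLE_of_thin _ h2 c h3⟩
  refine ⟨?_, fun c hc G _ => ⟨hup c hc G, ?_⟩⟩
  · intro c hc0 hc G _ htf n A hA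
    exact zero_of_TT A (CT.TT_small2 htf A c hc0 hc hA)
  · intro h n A
    obtain ⟨m, C, h1, h2, h3⟩ := hup c hc G n A
    let e : Fin (n + m) ≃ Fin n ⊕ Fin m := finSumFinEquiv.symm
    let B : (Matrix (Fin n ⊕ Fin m) (Fin n ⊕ Fin m) (MonoidAlgebra ℤ G))ˣ :=
      Units.map (stm (Fin m)) A * C
    have hB : B.val = fromBlocks A.val 0 0 1 * C.val := by
      rw [Units.val_mul]
      congr 1
    let B' : (Matrix (Fin (n + m)) (Fin (n + m)) (MonoidAlgebra ℤ G))ˣ := Units.map (re e) B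
    have hB' : B'.val = (fromBlocks A.val 0 0 1 * C.val).submatrix e e := by
      rw [← hB]; rfl
    have h4 : ZeroInWh B'.val := by
      refine h _ B' ?_ ?_
      · rw [hB']
        intro i j g
        exact h2 (e i) (e j) g
      · rw [hB']
        exact NormLE_re3 e e _ c h3
    have h5 : TT (TU G) B' := TT_of_zero B' h4
    have h6 : TT (TU G) (Units.map (re e.symm) B') := TT_re (TU G) e.symm B' h5
    have h7 : Units.map (re e.symm) B' = B := by
      apply Units.ext
      change (B.val.submatrix e e).submatrix e.symm e.symm = B.val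
      ext1 i j
      simp
    rw [h7] at h6
    have h8 : Units.map (stm (Fin m)) A = B * C⁻¹ := by
      simp only [B, mul_inv_cancel_right]
    apply zero_of_TT
    apply TT_unst (μ := Fin m)
    rw [h8]
    exact TT_mul _ _ _ h6 (TT_inv _ _ (TT_of_mem _ _ (commutator_le_HH _ h1)))

end Pool.Agent.Results.MP_16fe43_al.CriticalNormWhitehead
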