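import Pool.Agent.N77.GP.Main

/-!
# Extensions by graph products and the Farrell–Jones conjecture

`C` is any class of groups with the closure properties `ClosedE C`, as is known for the class of the
groups that satisfy the K- and L-theoretic Farrell–Jones conjecture with coefficients and finite
wreath products.

Let `N` be a normal subgroup of a group `G` which is the graph product of subgroups `K v` over an
arbitrary (finite or infinite) graph `Λ`. Let `M` be a subgroup of `G` with `G = N M` which acts on
the graph and permutes the groups `K v` accordingly by conjugation. If `G ⧸ N` is in `C` and for
every vertex `v` and every `m` in `M` which fixes `v` the subgroup generated by `K v` and `m` is in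
`C`, then `G` is in `C`.

For example `G` may be a semidirect product of a graph product of copies of `A` and a group `Q`
which acts on the graph (`Pool.Agent.N77.GP.gw`), such as the groups `W ⋊ π` of the reflection group
trick of Davis, where `π` acts on the flag complex of the right-angled Coxeter group `W`.

Outline of the proof. By the extension criterion and directed colimits it suffices to embed the
subgroup generated by a finite set `E ⊆ N` and `g E g⁻¹` in a group in `C` in which the conjugation
by `g` on `E` is induced by an inner automorphism. Write `g = n m`. The finite partial isomorphism of
`Λ` given by `m` extends to an automorphism `τ` of a larger finite graph `Λ'` (Hrushovski). There is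
a group `B` with an automorphism `θ` such that `B ⋊ ℤ` is in `C` and such that the groups `K v` of
the finitely many vertices in question are retracts of `B`, compatibly with `m` and `θ`. Then one
uses the group `GrP Λ' B ⋊ ℤ` where `ℤ` acts by `τ` and `θ`. This group is in `C`: the subgroup of
finite index where `τ` is trivial is built from `B ⋊ ℤ` by amalgamated products, one for each
vertex, with a homomorphism to a direct product which is injective on the two factors.
-/

set_option autoImplicit false

namespace Pool.Agent.Results.MP_16fe43_al.GraphProductKernels

open Pool.Agent.Y110.FJ (ClosedE)
open Pool.Agent.N77.GP (IsGraphProduct)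

theorem result (C : ∀ (G : Type) [Group G], Prop) (hC : ClosedE C)
    (G V : Type) [Group G] (N M : Subgroup G) [N.Normal] [MulAction M V]
    (Λ : SimpleGraph V) (K : V → Subgroup G) (hN : IsGraphProduct Λ K N) (hNM : N ⊔ M = ⊤)
    (hadj : ∀ (m : M) (v w : V), Λ.Adj v w → Λ.Adj (m • v) (m • w))
    (hconj : ∀ (m : M) (v : V), ∀ x ∈ K v, (m : G) * x * (m : G)⁻¹ ∈ K (m • v))
    (hK : ∀ (m : M) (v : V), m • v = v → C ↥(K v ⊔ Subgroup.zpowers (m : G)))
    (hQ : C (G ⧸ N)) : C G :=
  Pool.Agent.N77.GP.gp_main hC N M Λ K hN hNM hadj hconj hK hQ

end Pool.Agent.Results.MP_16fe43_al.GraphProductKernels
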